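import Pool.Agent.H34.Toep.One

namespace Pool.Agent.Results.MP_4845ad_an.AboveFirst

open H34.Toep

/-- The first constant is exceeded by all the others: `c_1 = π / 2` and
`c_N ≥ 8 π / (9 √3) > c_1` for all `N ≥ 2`. -/
theorem result :
    cN 1 = Real.pi / 2 ∧
      ∀ N : ℕ, 2 ≤ N → cN 1 < cN N ∧ 8 * Real.pi / (9 * Real.sqrt 3) ≤ cN N := by
  have h1 : cN 1 = Real.pi / 2 := le_antisymm cN_one_le cN_one_ge
  refine ⟨h1, fun N hN => ⟨?_, cN_ge_all hN⟩⟩
  refine lt_of_lt_of_le ?_ (cN_ge_all hN)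
  rw [h1, div_lt_div_iff₀ (by norm_num) (by positivity)]
  have hs := sqrt3_bounds
  have hpi := Real.pi_pos
  nlinarith

end Pool.Agent.Results.MP_4845ad_an.AboveFirst
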