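import Pool.Agent.H34.Toep.Main

namespace Pool.Agent.Results.MP_4845ad_an.BeyondTwo

open H34.Toep

/-- Lower bound for the Toeplitz mini-max constants for large `N`: `liminf c_N ≥ π / (2 ω) > 2`,
where `cos ω = ω`. -/
theorem result :
    ∃ ω : ℝ, Real.cos ω = ω ∧ 2 < Real.pi / (2 * ω) ∧
      ∀ ε : ℝ, 0 < ε → ∃ N₀ : ℕ, ∀ N ≥ N₀, Real.pi / (2 * ω) - ε ≤ cN N := by
  obtain ⟨ω, h1, h2⟩ := dottie_exists
  exact ⟨ω, h1, h2, fun ε hε => liminf_ge h1 hε⟩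

end Pool.Agent.Results.MP_4845ad_an.BeyondTwo
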