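import Pool.Agent.H34.Toep.Stretch

namespace Pool.Agent.Results.MP_4845ad_an.Multiples

open H34.Toep

/-- Monotonicity of the Toeplitz mini-max constants along multiples; `c_M ≥ c_N` for all
`M ≥ N²`; the sequence tends to its supremum. -/
theorem result :
    (∀ N M m : ℕ, m * N ≤ M → M < m * (N + 1) → cN N ≤ cN M) ∧
    (∀ N M : ℕ, N ^ 2 ≤ M → cN N ≤ cN M) ∧
    Filter.Tendsto (fun N => (cN N : EReal)) Filter.atTop (nhds (⨆ N, (cN N : EReal))) := by
  refine ⟨fun N M m h1 h2 => cN_mono_mult h1 h2, fun N M h => cN_le_of_sq_le h, ?_⟩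
  refine tendsto_order.2 ⟨fun b hb => ?_, fun b hb => ?_⟩
  · obtain ⟨N, hN⟩ := lt_iSup_iff.1 hb
    filter_upwards [Filter.eventually_ge_atTop (N ^ 2)] with M hM
    exact hN.trans_le (EReal.coe_le_coe_iff.2 (cN_le_of_sq_le hM))
  · exact Filter.Eventually.of_forall fun M =>
      (le_iSup (fun N => (cN N : EReal)) M).trans_lt hb

end Pool.Agent.Results.MP_4845ad_an.Multiples
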